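import Pool.Agent.MP_187b32_an.Corr2.Size
import Pool.Agent.MP_187b32_an.Herm.Macro

/-!
Module MC2: the corrector, given the two integral bounds for powers of `Lam`.
-/

set_option autoImplicit false

open Pool.Agent.Boltz Finset

noncomputable section

namespace Pool.Agent.MP_187b32_an.Corr2

/-- `(V_i V_j - δ_ij |V|^2 / 3) sqM`. -/
def SA (i j : Fin 3) : SV := ap i (ap j sqMS) - (if i = j then (1 / 3 : ℝ) else 0) • e4

/-- `V_i (|V|^2 - 5) sqM`. -/
def SB (i : Fin 3) : SV := ap i e4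

lemma SA_mem (i j : Fin 3) : SA i j ∈ HP 3 :=
  HP_mono (by norm_num : 2 ≤ 3) (Submodule.sub_mem _ (ap_mem i (ap_mem j (sqMS_mem 0)))
    (Submodule.smul_mem _ _ e4_mem))

lemma SB_mem (i : Fin 3) : SB i ∈ HP 3 := ap_mem i e4_mem

lemma PP_eq_zero {f : SV} (h0 : ip sqMS f = 0) (h1 : ∀ k, ip (ap k sqMS) f = 0)
    (h2 : ip e4 f = 0) : PP f = 0 := by
  refine PP_eq_zero_iff.2 fun a => ?_
  fin_cases a
  exacts [h0, h1 0, h1 1, h1 2, h2]

lemma PP_SA (i j : Fin 3) : PP (SA i j) = 0 := by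
  refine PP_eq_zero ?_ (fun k => ?_) ?_
  · rw [SA, map_sub, map_smul, ip_sqMS_e4, ip_sqMS_ap, smul_zero, sub_zero]
  · rw [SA, map_sub, map_smul, ip_ap_e4, ← ip_am, am_ap_sqMS, map_smul, LinearMap.smul_apply,
      ip_sqMS_ap]
    simp
  · rw [SA, map_sub, map_smul, ip_e4_e4, ← ip_am, am_e4, map_smul, LinearMap.smul_apply,
      ip_ap_ap_sqMS]
    split_ifs
    · simp only [smul_eq_mul]; ring
    · simp

lemma PP_SB (i : Fin 3) : PP (SB i) = 0 := by
  refine PP_eq_zero (ip_sqMS_ap _ _) (fun k => ?_) ?_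
  · rw [SB, ← ip_am, am_ap_sqMS, map_smul, LinearMap.smul_apply, ip_sqMS_e4, smul_zero]
  · rw [SB, ← ip_am, am_e4, map_smul, LinearMap.smul_apply, ip_ap_e4, smul_zero]

lemma SA_apply (i j : Fin 3) (v : E) :
    SA i j v = (v i * v j - if i = j then (∑ k, v k * v k) / 3 else 0) * sqM v := by
  rw [SA, ap_ap_sqMS, e4_eq]
  split_ifs <;> simp [Fin.sum_univ_three] <;> ring

lemma SB_apply (i : Fin 3) (v : E) : SB i v = v i * (∑ k, v k * v k - 5) * sqM v := by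
  have : SB i = mulV i e4 - (2 : ℝ) • mulV i sqMS := by
    rw [← ap_add_am, am_e4, ap_sqMS, SB]; abel
  rw [this, e4_eq]
  simp [Fin.sum_univ_three]
  ring

variable {B : BgD}

/-- Coefficient of the corrector. -/
def co (B : BgD) (a : ℝ → E3 → ℝ) (i : Fin 3) (s : ℝ) (x : E3) : ℝ :=
  (B.C s x)⁻¹ ^ (10 + 1) * dX i (a s) x

/-- Its time derivative. -/
def co' (B : BgD) (a : ℝ → E3 → ℝ) (i : Fin 3) (s : ℝ) (x : E3) : ℝ :=
  (((10 : ℕ) : ℝ) + 1) * ((B.C s x)⁻¹ ^ 10 *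
      ((-1 : ℝ) * (dS B.C s x * ((B.C s x)⁻¹ * (B.C s x)⁻¹)))) * dX i (a s) x
    + (B.C s x)⁻¹ ^ (10 + 1) * dX i (dS a s) x

lemma Bk.smD_co (hB : B.Ok) {a : ℝ → E3 → ℝ} (h : Bk B a) (i : Fin 3) :
    SmD (co B a i) (co' B a i) :=
  (smD_pow (smD_inv hB.sm_C fun s x => (hB.C_pos s x).ne') 10).mul (h.smd.dX i)

lemma Bk.sy_co (hB : B.Ok) {a : ℝ → E3 → ℝ} (h : Bk B a) (i : Fin 3) :
    Sy B 0 B.kap (co B a i) :=
  (((sy_invC hB).pow (10 + 1)).mul (h.sy.dX hB i)).cast (by simp)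
    (by simp only [BgD.kap]; push_cast; ring)

lemma Bk.sy_co' (hB : B.Ok) {a : ℝ → E3 → ℝ} (h : Bk B a) (i : Fin 3) :
    Sy B B.r (B.kap - B.r) (co' B a i) :=
  (((((sy_invC hB).pow 10).mul (((bk_C hB).sy'.mul ((sy_invC hB).mul (sy_invC hB))).const_mul
      (-1))).const_mul _).mul (h.sy.dX hB i)).cast (by simp)
      (by simp only [BgD.kap]; push_cast; ring) |>.add
    ((((sy_invC hB).pow (10 + 1)).mul (h.sy'.dX hB i)).cast (by simp)
      (by simp only [BgD.kap]; push_cast; ring))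

lemma k1_mul_co (hB : B.Ok) (a : ℝ → E3 → ℝ) (i : Fin 3) (s : ℝ) (x : E3) :
    B.k1 s x * co B a i s x = Real.exp (-B.r * s) * dX i (a s) x := by
  have := (hB.C_pos s x).ne'
  unfold BgD.k1 co
  rw [mul_assoc, ← mul_assoc (B.C s x ^ 11), ← mul_pow, mul_inv_cancel₀ this, one_pow, one_mul]

/-- Error in the momentum equation. -/
def eu (B : BgD) (j : Fin 3) (s : ℝ) (x : E3) : ℝ :=
  (B.mat (B.u j) s x + 5 * (Real.exp (-B.r * s) * B.C s x * dX j (B.C s) x)) * (B.C s x)⁻¹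

/-- Error in the energy equation. -/
def ec (B : BgD) (s : ℝ) (x : E3) : ℝ :=
  (B.mat B.C s x + 1 / 3 * (B.C s x * ∑ i, Real.exp (-B.r * s) * dX i (B.u i s) x)) * (B.C s x)⁻¹

lemma sy_eu (hB : B.Ok) (j : Fin 3) : Sy B B.r (-B.r) (eu B j) :=
  ((((bk_u hB j).mat hB).add ((((bk_C hB).exp_mul.mul ((bk_C hB).sy.dX hB j)).cast (by ring)
    (by ring)).const_mul 5)).mul (sy_invC hB)).cast (by ring) (by ring)

lemma sy_ec (hB : B.Ok) : Sy B B.r (-B.r) (ec B) :=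
  ((((bk_C hB).mat hB).add ((((bk_C hB).sy.mul (Sy.sum3 fun i => (bk_u hB i).exp_dX hB i)).cast
    (by ring) (by ring)).const_mul (1 / 3))).mul (sy_invC hB)).cast (by ring) (by ring)

/-- The two integral bounds for powers of `Lam`. -/
def LamInt (B : BgD) : Prop :=
  ∀ b : ℝ, 0 < b → (∃ C : ℝ, ∀ s, 0 ≤ s →
      tint (fun x => B.Lam s x ^ (-3 - b)) ≤ C * Real.exp (b * s)) ∧
    ∃ C : ℝ, ∀ s, 0 ≤ s → tint (fun x => B.Lam s x ^ (-3 + b)) ≤ C

lemma E_le_exp (hI : LamInt B) {t p a : ℝ} (hp : p < a) {G : ℝ → E3 → SV}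
    (h : VS B.sig (P B t p) G) (n : ℕ) : ∃ C : ℝ, 0 < C ∧ ∀ s, 0 ≤ s →
      B.E n 1 a s (G s) (G s) ≤ C * Real.exp (-2 * (t + p) * s) := by
  obtain ⟨C, hC, hb⟩ := E_le_P h n
  obtain ⟨D, hD⟩ := (hI (2 * a - 2 * p) (by linarith)).1
  refine ⟨C * (|D| + 1), by positivity, fun s hs => (hb a s hs).trans ?_⟩
  have e : Real.exp (-2 * (t + p) * s) =
      Real.exp (-(2 * a + 2 * t) * s) * Real.exp ((2 * a - 2 * p) * s) := by
    rw [← Real.exp_add]; congr 1; ring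
  rw [e, mul_assoc, mul_left_comm (|D| + 1)]
  gcongr
  refine (hD s hs).trans ?_
  gcongr
  linarith [le_abs_self D]

theorem corr_of (hI : ∀ B : BgD, B.Ok → LamInt B) : CorrStmt := by
  intro B hB Q
  have hI := hI B hB
  choose Φ hΦ using fun i j => Q.inv _ (SA_mem i j) (PP_SA i j)
  choose Ψ hΨ using fun i => Q.inv _ (SB_mem i) (PP_SB i)
  have hk0 : 0 < B.kap := by have := hB.r_gt; unfold BgD.kap; linarith
  have hk1 : B.kap < 1 / 4 := by have := hB.r_lt; unfold BgD.kap; linarith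
  have hr := hB.r_gt
  set gc : ℝ → E3 → SV := fun s x =>
    -(∑ i, ∑ j, co B (B.u j) i s x • Φ i j + ∑ i, co B B.C i s x • Ψ i) with hgc
  set gc' : ℝ → E3 → SV := fun s x =>
    -(∑ i, ∑ j, co' B (B.u j) i s x • Φ i j + ∑ i, co' B B.C i s x • Ψ i) with hgc'
  set R : ℝ → E3 → SV := fun s x =>
    -(∑ j, eu B j s x • mulV j sqMS + ∑ j, ec B s x • mulV j (mulV j sqMS)) with hR
  have v1 : VS B.sig (P B 0 B.kap) gc :=
    (VS.add _ _ (VS.sum3 fun i => VS.sum3 fun j => VS.base _ (Φ i j) ((bk_u hB j).sy_co hB i))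
      (VS.sum3 fun i => VS.base _ (Ψ i) ((bk_C hB).sy_co hB i))).neg
  have v2 : VS B.sig (P B B.r (B.kap - B.r)) gc' :=
    (VS.add _ _ (VS.sum3 fun i => VS.sum3 fun j => VS.base _ (Φ i j) ((bk_u hB j).sy_co' hB i))
      (VS.sum3 fun i => VS.base _ (Ψ i) ((bk_C hB).sy_co' hB i))).neg
  have v3 : VS B.sig (P B B.r (B.kap - B.r)) fun s x => gc' s x + (B.fld s).tr (gc s) x :=
    VS.add _ _ v2 (by simpa only [add_zero] using vs_tr hB v1)
  have v4 : VS B.sig (fun s x => if 1 / 40 ≤ B.Lam s x then P B B.r (-B.r) s x else 0) R :=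
    (VS.add _ _ (VS.sum3 fun j => VS.base _ (mulV j sqMS) (US.cutoff (sy_eu hB j) fun s x hx => by
        rw [eu, ← mul_assoc, hB.euler_u j s x hx, zero_mul]))
      (VS.sum3 fun j => VS.base _ (mulV j (mulV j sqMS)) (US.cutoff (sy_ec hB) fun s x hx => by
        rw [ec, ← mul_assoc, hB.euler_C s x hx, zero_mul]))).neg
  refine ⟨gc, gc', R, ((SmD.sum _ fun i _ => SmD.sum _ fun j _ =>
      ((bk_u hB j).smD_co hB i).smul_const (Φ i j)).add
      (SmD.sum _ fun i _ => ((bk_C hB).smD_co hB i).smul_const (Ψ i))).neg,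
    v4.sm, v1.per, v2.per, v4.per, fun s x => ?_, fun n => ?_⟩
  · have hC := (hB.C_pos s x).ne'
    simp only [hgc, hR, map_neg, map_add, map_sum, map_smul, hΦ, hΨ, smul_neg, smul_add,
      Finset.smul_sum, smul_smul, k1_mul_co hB, Fld.src, Fld.vel, neg_neg, ap_sqMS]
    ext v
    simp [Fin.sum_univ_three, SA_apply, SB_apply, BgD.fld, eu, ec]
    field_simp
    ring
  · obtain ⟨C1, hC1, h1⟩ := E_le_P v1 n
    obtain ⟨D, hD⟩ := (hI (2 * B.kap) (by linarith)).2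
    obtain ⟨C2, hC2, h2⟩ := E_le_exp hI hk1 v1 n
    obtain ⟨C3, hC3, h3⟩ := E_le_exp hI (a := 0) (by linarith) v3 n
    obtain ⟨C4, hC4, h4⟩ := E_le_exp hI (a := 1 / 4) (by linarith) v3 n
    obtain ⟨C5, hC5, h5⟩ := E_le_cutoff hB v4 n
    have hD0 := abs_nonneg D
    have hCD := mul_nonneg hC1.le hD0
    refine ⟨C1 * |D| + C2 + C3 + C4 + C5, by positivity, fun s hs => ⟨?_, ?_, fun a ha => ⟨?_, ?_⟩⟩⟩
    · have h6 := h1 0 s hs
      rw [show (-3 - (2 * 0 - 2 * B.kap) : ℝ) = -3 + 2 * B.kap by ring] at h6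
      simp only [mul_zero, add_zero, neg_zero, zero_mul, Real.exp_zero, one_mul] at h6
      have h7 := mul_le_mul_of_nonneg_left ((hD s hs).trans (le_abs_self D)) hC1.le
      linarith
    · have h6 := h2 s hs
      rw [zero_add] at h6
      exact h6.trans (mul_le_mul_of_nonneg_right (by linarith) (Real.exp_pos _).le)
    · have h6 := h3 s hs
      have h7 := h4 s hs
      rw [add_sub_cancel] at h6 h7
      rcases ha with rfl | rfl
      · exact h6.trans (mul_le_mul_of_nonneg_right (by linarith) (Real.exp_pos _).le)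
      · exact h7.trans (mul_le_mul_of_nonneg_right (by linarith) (Real.exp_pos _).le)
    · refine (h5 a s hs ?_ ?_).trans
        (mul_le_mul_of_nonneg_right (by linarith) (Real.exp_pos _).le)
      · rcases ha with rfl | rfl <;> norm_num
      · rcases ha with rfl | rfl <;> norm_num

end Pool.Agent.MP_187b32_an.Corr2
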