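import Pool.Agent.MP_187b32_an.Corr2.Core

/-!
Module MC2: the integrals of the powers of `Lam`, and the final statement.
-/

set_option autoImplicit false

open Pool.Agent.Boltz MeasureTheory

noncomputable section

namespace Pool.Agent.MP_187b32_an.Corr2

variable (B : BgD)

lemma tint_Lam_le (s p : ℝ) {ψ : E3 → ℝ}
    (hψ : IntegrableOn ψ (cube (WithLp.toLp 2 fun _ => -(1 / 2 : ℝ)) 1))
    (h : ∀ x, x ≠ 0 → box (1 / 2) x → B.Lam s x ^ p ≤ ψ x) :
    tint (fun x => B.Lam s x ^ p) ≤ ∫ x in cube (WithLp.toLp 2 fun _ => -(1 / 2 : ℝ)) 1, ψ x := by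
  have hc : Continuous fun x => B.Lam s x ^ p :=
    (continuous_Lam s).rpow_const fun x => Or.inl (Lam_pos s x).ne'
  have hp : Per fun x => B.Lam s x ^ p := fun i x => by simp only [BgD.Lam, B.cut.per_rho2 i x]
  rw [← integral_cube_eq_tint hp hc (WithLp.toLp 2 fun _ => -(1 / 2 : ℝ))]
  refine setIntegral_mono_on_ae (integrableOn_cube hc _ _) hψ (measurableSet_cube _ _) ?_
  filter_upwards [compl_mem_ae_iff.2 (measure_singleton (0 : E3))] with x hx hx'
  refine h x hx fun i => ?_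
  have h1 := hx' i
  simp only [Set.mem_Ioc] at h1
  rw [abs_le]
  constructor <;> linarith [h1.1, h1.2]

lemma Lam_rpow_le (s : ℝ) {q t : ℝ} (hq : 0 ≤ q) {x : E3} (hx : box (1 / 2) x) (ht : 0 < t)
    (h : t ≤ Real.exp (-2 * s) + ‖x‖ ^ 2) :
    B.Lam s x ^ (-q) ≤ (12 : ℝ) ^ (q / 2) * t ^ (-q / 2) := by
  have h1 := B.cut.rho2_ge x hx
  have h2 := Real.exp_pos (-2 * s)
  have h3 : √(t / 12) ≤ B.Lam s x := Real.sqrt_le_sqrt (by linarith)
  refine (Real.rpow_le_rpow_of_nonpos (by positivity) h3 (by linarith)).trans (le_of_eq ?_)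
  rw [Real.sqrt_eq_rpow, ← Real.rpow_mul (by positivity), Real.div_rpow ht.le (by norm_num),
    show 1 / 2 * -q = -q / 2 by ring, div_eq_mul_inv, ← Real.rpow_neg (by norm_num), mul_comm,
    show -(-q / 2) = q / 2 by ring]

theorem tint_Lam_neg {b : ℝ} (hb : 0 < b) : ∃ C : ℝ, ∀ s,
    tint (fun x => B.Lam s x ^ (-3 - b)) ≤ C * Real.exp (b * s) := by
  have hI : Integrable fun y : E3 => (1 + ‖y‖ ^ 2) ^ (-(3 + b) / 2) :=
    integrable_rpow_neg_one_add_norm_sq (by simpa using hb)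
  refine ⟨(12 : ℝ) ^ ((3 + b) / 2) * ∫ y : E3, (1 + ‖y‖ ^ 2) ^ (-(3 + b) / 2), fun s => ?_⟩
  have he := Real.exp_pos s
  have hJ := (hI.comp_smul he.ne').const_mul ((12 : ℝ) ^ ((3 + b) / 2) * Real.exp ((3 + b) * s))
  refine (tint_Lam_le B s _ hJ.integrableOn fun x _ hx => ?_).trans
    ((setIntegral_le_integral hJ (ae_of_all _ fun x => by positivity)).trans (le_of_eq ?_))
  · rw [show -3 - b = -(3 + b) by ring]
    refine (Lam_rpow_le B s (by linarith) hx (by positivity) le_rfl).trans (le_of_eq ?_)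
    have e1 : Real.exp (-2 * s) + ‖x‖ ^ 2 = Real.exp (-2 * s) * (1 + ‖Real.exp s • x‖ ^ 2) := by
      rw [norm_smul, Real.norm_of_nonneg he.le, mul_pow, mul_add, ← mul_assoc, ← Real.exp_nat_mul,
        ← Real.exp_add]
      simp
    rw [e1, Real.mul_rpow (by positivity) (by positivity), ← Real.exp_mul, ← mul_assoc,
      show -2 * s * (-(3 + b) / 2) = (3 + b) * s by ring]
  · rw [integral_const_mul,
      Measure.integral_comp_smul volume (fun y : E3 => (1 + ‖y‖ ^ 2) ^ (-(3 + b) / 2))]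
    have e2 : Real.exp ((3 + b) * s) = Real.exp s ^ 3 * Real.exp (b * s) := by
      rw [← Real.exp_nat_mul, ← Real.exp_add]; congr 1; push_cast; ring
    simp only [finrank_euclideanSpace, Fintype.card_fin, smul_eq_mul, e2]
    rw [abs_of_pos (by positivity)]
    field_simp

theorem tint_Lam_pos {b : ℝ} (hb : 0 < b) : ∃ C : ℝ, ∀ s, 0 ≤ s →
    tint (fun x => B.Lam s x ^ (-3 + b)) ≤ C := by
  rcases le_or_gt 3 b with h3 | h3
  · refine ⟨2 ^ (-3 + b), fun s hs => (le_abs_self _).trans (abs_tint_le_const fun x => ?_)⟩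
    rw [abs_of_pos (Real.rpow_pos_of_pos (Lam_pos s x) _)]
    refine Real.rpow_le_rpow (Lam_pos s x).le (Real.sqrt_le_iff.2 ⟨by norm_num, ?_⟩) (by linarith)
    have h1 : Real.exp (-2 * s) ≤ 1 := Real.exp_le_one_iff.2 (by linarith)
    linarith [B.cut.rho2_le x]
  have hI : LocallyIntegrable (fun x : E3 => ‖x‖ ^ (-(3 - b))) :=
    locallyIntegrable_of_norm_le_rpow (C := 1) (α := 3 - b) (by simp) (by simpa using hb)
      (ae_of_all _ fun x => by rw [Real.norm_of_nonneg (by positivity), one_mul])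
      (by fun_prop : Measurable fun x : E3 => ‖x‖ ^ (-(3 - b))).aestronglyMeasurable
  have hJ := ((hI.integrableOn_isCompact (isCompact_closedBall _ _)).mono_set
    (cube_subset_closedBall (WithLp.toLp 2 fun _ => -(1 / 2 : ℝ)) 1)).const_mul
      ((12 : ℝ) ^ ((3 - b) / 2))
  refine ⟨_, fun s _ => tint_Lam_le B s _ hJ fun x hx0 hx => ?_⟩
  have hn : 0 < ‖x‖ := norm_pos_iff.2 hx0
  rw [show -3 + b = -(3 - b) by ring]
  refine (Lam_rpow_le B s (t := ‖x‖ ^ 2) (by linarith) hx (by positivity)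
    (by linarith [Real.exp_pos (-2 * s)])).trans (le_of_eq ?_)
  rw [← Real.rpow_natCast, ← Real.rpow_mul hn.le]
  congr 2
  push_cast
  ring

theorem lamInt : LamInt B := fun _ hb =>
  ⟨(tint_Lam_neg B hb).imp fun _ h s _ => h s, tint_Lam_pos B hb⟩

/-- Module MC2. -/
theorem corrStmt : CorrStmt := corr_of fun B _ => lamInt B

end Pool.Agent.MP_187b32_an.Corr2
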