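import Pool.Agent.MP_187b32_an.Spec.Energy

/-!
Symbols that are uniform in the time `s ≥ 0`: scalar calculus, finite sums of symbols times fixed
Schwartz functions, and the bound of the energy density.
-/

set_option autoImplicit false

open Pool.Agent.Boltz Finset

noncomputable section

namespace Pool.Agent.MP_187b32_an.Corr2

/-- The inverse of a non-vanishing smooth family is smooth. -/
theorem smC_inv {T : Type*} [TopologicalSpace T] {c : T → E3 → ℝ} (hc : SmC c)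
    (h0 : ∀ s x, c s x ≠ 0) : SmC fun s x => (c s x)⁻¹ := by
  refine smC_coind (fun g => ∃ (k : ℕ) (a : T → E3 → ℝ), SmC a ∧
    g = fun s x => a s x * (c s x)⁻¹ ^ k) ?_ ⟨1, fun _ _ => 1, SmC.const 1, by simp⟩
  rintro g ⟨k, a, ha, rfl⟩
  refine ⟨ha.cont.mul ((hc.cont.inv₀ fun p => h0 p.1 p.2).pow k), fun i =>
    ⟨_, ⟨k + 1, fun s x => dX i (a s) x * c s x - (k : ℝ) • (a s x * dX i (c s) x),
      ((ha.dX i).mul hc).sub ((ha.mul (hc.dX i)).const_smul k), rfl⟩, fun s x => ?_⟩⟩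
  have h1 := (ha.dif s i x).hasDerivAt
  have h2 := (hc.dif s i x).hasDerivAt
  have h3 := h1.mul ((h2.inv (by simpa using h0 s x)).pow k)
  refine HasDerivAt.hd (h3.congr_deriv ?_)
  have := h0 s x
  simp only [zero_smul, add_zero, Pi.pow_apply, Pi.inv_apply, smul_eq_mul]
  rcases k with _ | k
  · simp; field_simp
  · simp only [Nat.add_sub_cancel, pow_succ]
    field_simp
    ring

theorem dX_inv {c : E3 → ℝ} (hc : Dif c) (h0 : ∀ x, c x ≠ 0) (i : Fin 3) :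
    dX i (fun x => (c x)⁻¹) = fun x => (-1 : ℝ) * (dX i c x * ((c x)⁻¹ * (c x)⁻¹)) := by
  funext x
  refine dX_eq (HasDerivAt.hd (((hc i x).hasDerivAt.inv (by simpa using h0 x)).congr_deriv ?_))
  have := h0 x
  simp only [zero_smul, add_zero]
  field_simp

theorem smD_inv {c c' : ℝ → E3 → ℝ} (hc : SmD c c') (h0 : ∀ s x, c s x ≠ 0) :
    SmD (fun s x => (c s x)⁻¹) fun s x => (-1 : ℝ) * (c' s x * ((c s x)⁻¹ * (c s x)⁻¹)) := by
  have hi := smC_inv hc.sm h0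
  refine ⟨hi, (hc.sm'.mul (hi.mul hi)).const_smul (-1), fun s x => ?_⟩
  refine HasDerivAt.hd (((hc.hd s x).hasDerivAt.inv (h0 s x)).congr_deriv ?_)
  have := h0 s x
  field_simp

variable {σ : ℝ → E3 → ℝ}

/-- Symbol bounds up to the order `N`, uniform in `s ≥ 0`. -/
def BdN (σ : ℝ → E3 → ℝ) (N : ℕ) (m a : ℝ → E3 → ℝ) : Prop :=
  ∀ w : List (Fin 3), w.length ≤ N → ∃ K : ℝ, 0 ≤ K ∧ ∀ s, 0 ≤ s → ∀ x,
    σ s x ^ w.length * |dXw w (a s) x| ≤ K * m s x

theorem BdN.le {N N' : ℕ} {m a : ℝ → E3 → ℝ} (h : BdN σ N m a) (hN : N' ≤ N) : BdN σ N' m a :=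
  fun w hw => h w (hw.trans hN)

theorem BdN.mono {N : ℕ} {m m' a : ℝ → E3 → ℝ} (h : BdN σ N m a) {c : ℝ} (hc : 0 ≤ c)
    (hm : ∀ s, 0 ≤ s → ∀ x, m s x ≤ c * m' s x) : BdN σ N m' a := by
  intro w hw
  obtain ⟨K, hK, h⟩ := h w hw
  refine ⟨K * c, by positivity, fun s hs x => (h s hs x).trans ?_⟩
  rw [mul_assoc]
  exact mul_le_mul_of_nonneg_left (hm s hs x) hK

theorem BdN.dX (hσ : ∀ s x, 0 < σ s x) {N : ℕ} {m a : ℝ → E3 → ℝ} (h : BdN σ (N + 1) m a)
    (i : Fin 3) : BdN σ N (fun s x => m s x / σ s x) fun s => dX i (a s) := by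
  intro w hw
  obtain ⟨K, hK, h⟩ := h (i :: w) (by simpa using hw)
  refine ⟨K, hK, fun s hs x => ?_⟩
  have h1 := h s hs x
  rw [List.length_cons, dXw_cons, pow_succ] at h1
  rw [← mul_div_assoc, le_div_iff₀ (hσ s x)]
  linarith

theorem bdN_succ (hσ : ∀ s x, 0 < σ s x) {N : ℕ} {m a : ℝ → E3 → ℝ} (h0 : BdN σ 0 m a)
    (h : ∀ i, BdN σ N (fun s x => m s x / σ s x) fun s => dX i (a s)) : BdN σ (N + 1) m a := by
  intro w hw
  rcases w with _ | ⟨i, w⟩
  · exact h0 [] le_rfl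
  · obtain ⟨K, hK, h⟩ := h i w (by simpa using hw)
    refine ⟨K, hK, fun s hs x => ?_⟩
    have h1 := h s hs x
    rw [← mul_div_assoc, le_div_iff₀ (hσ s x)] at h1
    rw [List.length_cons, dXw_cons, pow_succ]
    linarith

theorem bdN_zero {m a : ℝ → E3 → ℝ} {K : ℝ} (hK : 0 ≤ K)
    (h : ∀ s, 0 ≤ s → ∀ x, |a s x| ≤ K * m s x) : BdN σ 0 m a := by
  intro w hw
  obtain rfl : w = [] := List.length_eq_zero_iff.1 (Nat.le_zero.1 hw)
  exact ⟨K, hK, fun s hs x => by simpa using h s hs x⟩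

theorem BdN.abs_le {N : ℕ} {m a : ℝ → E3 → ℝ} (h : BdN σ N m a) :
    ∃ K : ℝ, 0 ≤ K ∧ ∀ s, 0 ≤ s → ∀ x, |a s x| ≤ K * m s x := by
  obtain ⟨K, hK, h⟩ := h [] (Nat.zero_le _)
  exact ⟨K, hK, fun s hs x => by simpa using h s hs x⟩

theorem BdN.add (hσ : ∀ s x, 0 < σ s x) {N : ℕ} {m a b : ℝ → E3 → ℝ} (sa : SmC a) (sb : SmC b)
    (ha : BdN σ N m a) (hb : BdN σ N m b) : BdN σ N m fun s x => a s x + b s x := by
  intro w hw
  obtain ⟨K, hK, ha⟩ := ha w hw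
  obtain ⟨L, hL, hb⟩ := hb w hw
  refine ⟨K + L, by positivity, fun s hs x => ?_⟩
  have h1 := ha s hs x
  have h2 := hb s hs x
  rw [dXw_add (sa.slice s) (sb.slice s)]
  have h3 := mul_le_mul_of_nonneg_left (abs_add_le (dXw w (a s) x) (dXw w (b s) x))
    (pow_pos (hσ s x) w.length).le
  linarith

theorem BdN.const_mul {N : ℕ} {m a : ℝ → E3 → ℝ} (sa : SmC a) (ha : BdN σ N m a) (c : ℝ) :
    BdN σ N m fun s x => c * a s x := by
  intro w hw
  obtain ⟨K, hK, ha⟩ := ha w hw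
  refine ⟨|c| * K, by positivity, fun s hs x => ?_⟩
  have h1 := mul_le_mul_of_nonneg_left (ha s hs x) (abs_nonneg c)
  have h2 : dXw w (fun x => c * a s x) x = c * dXw w (a s) x :=
    congrFun (dXw_const_smul (sa.slice s) c w) x
  rw [h2, abs_mul]
  linarith

theorem BdN.mul (hσ : ∀ s x, 0 < σ s x) (N : ℕ) : ∀ {m m' a b : ℝ → E3 → ℝ}, SmC a → SmC b →
    BdN σ N m a → BdN σ N m' b → BdN σ N (fun s x => m s x * m' s x) fun s x => a s x * b s x := by
  have h0 : ∀ {N : ℕ} {m m' a b : ℝ → E3 → ℝ}, BdN σ N m a → BdN σ N m' b →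
      BdN σ 0 (fun s x => m s x * m' s x) fun s x => a s x * b s x := by
    intro N m m' a b ha hb
    obtain ⟨K, hK, ha⟩ := ha.abs_le
    obtain ⟨L, hL, hb⟩ := hb.abs_le
    refine bdN_zero (K := K * L) (by positivity) fun s hs x => ?_
    rw [abs_mul]
    calc |a s x| * |b s x| ≤ (K * m s x) * (L * m' s x) :=
          mul_le_mul (ha s hs x) (hb s hs x) (abs_nonneg _) ((abs_nonneg _).trans (ha s hs x))
      _ = _ := by ring
  induction N with
  | zero => exact fun _ _ ha hb => h0 ha hb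
  | succ N ih =>
    intro m m' a b sa sb ha hb
    refine bdN_succ hσ (h0 ha hb) fun i => ?_
    have e : (fun s => Boltz.dX i fun x => a s x * b s x) =
        fun s x => Boltz.dX i (a s) x * b s x + a s x * Boltz.dX i (b s) x :=
      funext fun s => dX_mul (sa.dif s) (sb.dif s) i
    rw [e]
    refine BdN.add hσ ((sa.dX i).mul sb) (sa.mul (sb.dX i))
      ((ih (sa.dX i) sb (ha.dX hσ i) (hb.le N.le_succ)).mono zero_le_one fun s _ x => ?_)
      ((ih sa (sb.dX i) (ha.le N.le_succ) (hb.dX hσ i)).mono zero_le_one fun s _ x => ?_)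
    · exact le_of_eq (by ring)
    · exact le_of_eq (by ring)

theorem BdN.inv (hσ : ∀ s x, 0 < σ s x) {m a : ℝ → E3 → ℝ} (sa : SmC a) (hm : ∀ s x, 0 < m s x)
    (h0 : ∀ s x, 0 < a s x) {c : ℝ} (hc : 0 < c) (hge : ∀ s, 0 ≤ s → ∀ x, c * m s x ≤ a s x)
    (N : ℕ) : BdN σ N m a → BdN σ N (fun s x => (m s x)⁻¹) fun s x => (a s x)⁻¹ := by
  have h1 : BdN σ 0 (fun s x => (m s x)⁻¹) fun s x => (a s x)⁻¹ := by
    refine bdN_zero (K := c⁻¹) (by positivity) fun s hs x => ?_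
    rw [abs_of_pos (inv_pos.2 (h0 s x)), ← mul_inv]
    exact inv_anti₀ (mul_pos hc (hm s x)) (hge s hs x)
  have si := smC_inv sa fun s x => (h0 s x).ne'
  induction N with
  | zero => exact fun _ => h1
  | succ N ih =>
    intro ha
    refine bdN_succ hσ h1 fun i => ?_
    have e : (fun s => Boltz.dX i fun x => (a s x)⁻¹) =
        fun s x => (-1 : ℝ) * (Boltz.dX i (a s) x * ((a s x)⁻¹ * (a s x)⁻¹)) :=
      funext fun s => dX_inv (sa.dif s) (fun x => (h0 s x).ne') i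
    rw [e]
    have h2 := ih (ha.le N.le_succ)
    refine BdN.const_mul ((sa.dX i).mul (si.mul si)) ((BdN.mul hσ N (sa.dX i) (si.mul si)
      (ha.dX hσ i) (BdN.mul hσ N si si h2 h2)).mono zero_le_one fun s _ x => le_of_eq ?_) _
    have := (hm s x).ne'
    have := (hσ s x).ne'
    field_simp

/-- Smooth periodic symbols of size `m`, uniformly in `s ≥ 0`. -/
structure US (σ m a : ℝ → E3 → ℝ) : Prop where
  sm : SmC a
  per : ∀ s, Per (a s)
  bd : ∀ N, BdN σ N m a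

theorem US.of_sym {m a : ℝ → E3 → ℝ} {K : ℕ → ℝ} (sa : SmC a) (pa : ∀ s, Per (a s))
    (hm : ∀ s x, 0 ≤ m s x) (h : ∀ s, 0 ≤ s → SymBd K 0 (σ s) (m s) (a s)) : US σ m a :=
  ⟨sa, pa, fun _ w _ => ⟨|K w.length|, abs_nonneg _, fun s hs x =>
    (h s hs w (Nat.zero_le _) x).trans (mul_le_mul_of_nonneg_right (le_abs_self _) (hm s x))⟩⟩

theorem US.congr {m a b : ℝ → E3 → ℝ} (h : US σ m a) (e : ∀ s x, a s x = b s x) : US σ m b := by
  have : a = b := funext fun s => funext (e s)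
  exact this ▸ h

theorem US.mono {m m' a : ℝ → E3 → ℝ} (h : US σ m a) {c : ℝ} (hc : 0 ≤ c)
    (hm : ∀ s, 0 ≤ s → ∀ x, m s x ≤ c * m' s x) : US σ m' a :=
  ⟨h.sm, h.per, fun N => (h.bd N).mono hc hm⟩

theorem US.size {m m' a : ℝ → E3 → ℝ} (h : US σ m a) (e : ∀ s x, m s x = m' s x) : US σ m' a :=
  h.mono zero_le_one fun s _ x => by rw [e, one_mul]

theorem US.dX (hσ : ∀ s x, 0 < σ s x) {m a : ℝ → E3 → ℝ} (h : US σ m a) (i : Fin 3) :
    US σ (fun s x => m s x / σ s x) fun s => dX i (a s) :=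
  ⟨h.sm.dX i, fun s => (h.per s).dX i, fun N => (h.bd (N + 1)).dX hσ i⟩

theorem US.add (hσ : ∀ s x, 0 < σ s x) {m a b : ℝ → E3 → ℝ} (ha : US σ m a) (hb : US σ m b) :
    US σ m fun s x => a s x + b s x :=
  ⟨ha.sm.add hb.sm, fun s => (ha.per s).map₂ (hb.per s) (· + ·),
    fun N => BdN.add hσ ha.sm hb.sm (ha.bd N) (hb.bd N)⟩

theorem US.const_mul {m a : ℝ → E3 → ℝ} (ha : US σ m a) (c : ℝ) : US σ m fun s x => c * a s x :=
  ⟨ha.sm.const_smul c, fun s => (ha.per s).map (c * ·), fun N => BdN.const_mul ha.sm (ha.bd N) c⟩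

theorem US.neg {m a : ℝ → E3 → ℝ} (ha : US σ m a) : US σ m fun s x => -a s x :=
  (ha.const_mul (-1)).congr fun _ _ => by ring

theorem US.sub (hσ : ∀ s x, 0 < σ s x) {m a b : ℝ → E3 → ℝ} (ha : US σ m a) (hb : US σ m b) :
    US σ m fun s x => a s x - b s x :=
  (ha.add hσ hb.neg).congr fun _ _ => by ring

theorem US.sum3 (hσ : ∀ s x, 0 < σ s x) {m : ℝ → E3 → ℝ} {a : Fin 3 → ℝ → E3 → ℝ}
    (ha : ∀ i, US σ m (a i)) : US σ m fun s x => ∑ i, a i s x :=
  (((ha 0).add hσ (ha 1)).add hσ (ha 2)).congr fun _ _ => by rw [Fin.sum_univ_three]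

theorem US.mul (hσ : ∀ s x, 0 < σ s x) {m m' a b : ℝ → E3 → ℝ} (ha : US σ m a) (hb : US σ m' b) :
    US σ (fun s x => m s x * m' s x) fun s x => a s x * b s x :=
  ⟨ha.sm.mul hb.sm, fun s => (ha.per s).map₂ (hb.per s) (· * ·),
    fun N => BdN.mul hσ N ha.sm hb.sm (ha.bd N) (hb.bd N)⟩

theorem US.inv (hσ : ∀ s x, 0 < σ s x) {m a : ℝ → E3 → ℝ} (ha : US σ m a) (hm : ∀ s x, 0 < m s x)
    (h0 : ∀ s x, 0 < a s x) {c : ℝ} (hc : 0 < c) (hge : ∀ s, 0 ≤ s → ∀ x, c * m s x ≤ a s x) :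
    US σ (fun s x => (m s x)⁻¹) fun s x => (a s x)⁻¹ :=
  ⟨smC_inv ha.sm fun s x => (h0 s x).ne', fun s => (ha.per s).map (·⁻¹),
    fun N => BdN.inv hσ ha.sm hm h0 hc hge N (ha.bd N)⟩

theorem US.of_time {φ : ℝ → ℝ} (hφ : Continuous φ) (h0 : ∀ s, 0 ≤ φ s) :
    US σ (fun s _ => φ s) fun s _ => φ s := by
  refine ⟨SmC.of_time hφ, fun s => Per.const _, fun N w _ => ⟨1, zero_le_one, fun s _ x => ?_⟩⟩
  by_cases hw : w = []
  · subst hw; simp [abs_of_nonneg (h0 s)]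
  · rw [dXw_const w hw]; simpa using h0 s

theorem US.pow (hσ : ∀ s x, 0 < σ s x) {m a : ℝ → E3 → ℝ} (ha : US σ m a) (k : ℕ) :
    US σ (fun s x => m s x ^ k) fun s x => a s x ^ k := by
  induction k with
  | zero => simpa using US.of_time (σ := σ) (φ := fun _ => 1) continuous_const fun _ => zero_le_one
  | succ k ih => simpa only [pow_succ] using ih.mul hσ ha

theorem smD_pow {c c' : ℝ → E3 → ℝ} (hc : SmD c c') (k : ℕ) :
    SmD (fun s x => c s x ^ (k + 1)) fun s x => ((k : ℝ) + 1) * (c s x ^ k * c' s x) := by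
  induction k with
  | zero => simpa using hc
  | succ k ih =>
    refine ((ih.mul hc).congr fun s x => (pow_succ _ _).symm).congr_deriv fun s x => ?_
    push_cast
    ring

/-! ### Schwartz-valued symbols -/

/-- Finite sums of symbols of size `m` times fixed Schwartz functions. -/
inductive VS (σ m : ℝ → E3 → ℝ) : (ℝ → E3 → SV) → Prop
  | base (a : ℝ → E3 → ℝ) (Φ : SV) (ha : US σ m a) : VS σ m fun s x => a s x • Φ
  | add (G H : ℝ → E3 → SV) (hG : VS σ m G) (hH : VS σ m H) : VS σ m fun s x => G s x + H s x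

theorem VS.congr {m : ℝ → E3 → ℝ} {G H : ℝ → E3 → SV} (h : VS σ m G) (e : ∀ s x, G s x = H s x) :
    VS σ m H := by
  have : G = H := funext fun s => funext (e s)
  exact this ▸ h

theorem VS.sm {m : ℝ → E3 → ℝ} {G : ℝ → E3 → SV} (h : VS σ m G) : SmC G := by
  induction h with
  | base a Φ ha => exact ha.sm.smul_const Φ
  | add G H _ _ hG hH => exact hG.add hH

theorem VS.per {m : ℝ → E3 → ℝ} {G : ℝ → E3 → SV} (h : VS σ m G) (s : ℝ) : Per (G s) := by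
  induction h with
  | base a Φ ha => exact (ha.per s).map (· • Φ)
  | add G H _ _ hG hH => exact hG.map₂ hH (· + ·)

theorem VS.mono {m m' : ℝ → E3 → ℝ} {G : ℝ → E3 → SV} (h : VS σ m G) {c : ℝ} (hc : 0 ≤ c)
    (hm : ∀ s, 0 ≤ s → ∀ x, m s x ≤ c * m' s x) : VS σ m' G := by
  induction h with
  | base a Φ ha => exact VS.base a Φ (ha.mono hc hm)
  | add G H _ _ hG hH => exact VS.add G H hG hH

theorem VS.clm {m : ℝ → E3 → ℝ} {G : ℝ → E3 → SV} (h : VS σ m G) (A : SV →L[ℝ] SV) :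
    VS σ m fun s x => A (G s x) := by
  induction h with
  | base a Φ ha => exact (VS.base a (A Φ) ha).congr fun _ _ => (map_smul A _ _).symm
  | add G H _ _ hG hH => exact (VS.add _ _ hG hH).congr fun _ _ => (map_add A _ _).symm

theorem VS.neg {m : ℝ → E3 → ℝ} {G : ℝ → E3 → SV} (h : VS σ m G) : VS σ m fun s x => -G s x :=
  h.clm (-ContinuousLinearMap.id ℝ SV)

theorem VS.sum3 {m : ℝ → E3 → ℝ} {G : Fin 3 → ℝ → E3 → SV} (h : ∀ i, VS σ m (G i)) :
    VS σ m fun s x => ∑ i, G i s x :=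
  (VS.add _ _ (VS.add _ _ (h 0) (h 1)) (h 2)).congr fun _ _ => by rw [Fin.sum_univ_three]

theorem VS.smul (hσ : ∀ s x, 0 < σ s x) {m m' c : ℝ → E3 → ℝ} {G : ℝ → E3 → SV} (hc : US σ m' c)
    (h : VS σ m G) : VS σ (fun s x => m' s x * m s x) fun s x => c s x • G s x := by
  induction h with
  | base a Φ ha => exact (VS.base _ Φ (hc.mul hσ ha)).congr fun _ _ => (smul_smul _ _ _).symm
  | add G H _ _ hG hH => exact (VS.add _ _ hG hH).congr fun _ _ => (smul_add _ _ _).symm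

theorem VS.dX (hσ : ∀ s x, 0 < σ s x) {m : ℝ → E3 → ℝ} {G : ℝ → E3 → SV} (h : VS σ m G)
    (i : Fin 3) : VS σ (fun s x => m s x / σ s x) fun s => dX i (G s) := by
  induction h with
  | base a Φ ha =>
    exact (VS.base _ Φ (ha.dX hσ i)).congr fun s x =>
      (congrFun (dX_smul_const (ha.sm.dif s) Φ i) x).symm
  | add G H hG' hH' hG hH =>
    exact (VS.add _ _ hG hH).congr fun s x =>
      (congrFun (dX_add (hG'.sm.dif s) (hH'.sm.dif s) i) x).symm

lemma nA_smul' (q : ℕ) (c : ℝ) (f : SV) : nA q (c • f) = c ^ 2 * nA q f := by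
  simp only [nA, map_smul, LinearMap.smul_apply, smul_eq_mul, Finset.mul_sum]
  exact Finset.sum_congr rfl fun _ _ => by ring

theorem VS.nA_le (hσ : ∀ s x, 0 < σ s x) {m : ℝ → E3 → ℝ} {G : ℝ → E3 → SV} (h : VS σ m G)
    (w : List (Fin 3)) (q : ℕ) : ∃ K : ℝ, 0 ≤ K ∧ ∀ s, 0 ≤ s → ∀ x,
      σ s x ^ (2 * w.length) * nA q (dXw w (G s) x) ≤ K * m s x ^ 2 := by
  induction h with
  | base a Φ ha =>
    obtain ⟨K, hK, h⟩ := ha.bd _ w le_rfl
    have h0 := nA_nonneg q Φ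
    refine ⟨K ^ 2 * nA q Φ, by positivity, fun s hs x => ?_⟩
    rw [dXw_smul_const (ha.sm.slice s), nA_smul']
    have h1 := pow_le_pow_left₀ (mul_nonneg (pow_pos (hσ s x) _).le (abs_nonneg _)) (h s hs x) 2
    rw [mul_pow, mul_pow, sq_abs, ← pow_mul, mul_comm w.length] at h1
    have h2 := mul_le_mul_of_nonneg_right h1 h0
    linarith
  | add G H hG' hH' hG hH =>
    obtain ⟨K, hK, hG⟩ := hG
    obtain ⟨L, hL, hH⟩ := hH
    refine ⟨2 * K + 2 * L, by positivity, fun s hs x => ?_⟩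
    rw [dXw_add (hG'.sm.slice s) (hH'.sm.slice s)]
    have h1 := mul_le_mul_of_nonneg_left (nA_add_le q (dXw w (G s) x) (dXw w (H s) x))
      (pow_pos (hσ s x) (2 * w.length)).le
    have h2 := hG s hs x
    have h3 := hH s hs x
    linarith

theorem VS.bb_le (hσ : ∀ s x, 0 < σ s x) {m : ℝ → E3 → ℝ} {G : ℝ → E3 → SV} (h : VS σ m G)
    (n : ℕ) : ∃ C : ℝ, 0 < C ∧ ∀ s, 0 ≤ s → ∀ x,
      |bb n 1 (σ s) (G s) (G s) x| ≤ C * m s x ^ 2 := by
  choose K hK0 hK using h.nA_le hσ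
  set C := ∑ j ∈ range (n + 1), ∑ q ∈ range (n + 1 - j), ∑ u ∈ words j, K u q with hC
  have hC0 : 0 ≤ C := sum_nonneg fun _ _ => sum_nonneg fun _ _ => sum_nonneg fun _ _ => hK0 _ _
  refine ⟨C + 1, by positivity, fun s hs x => ?_⟩
  have e : bb n 1 (σ s) (G s) (G s) x = ∑ j ∈ range (n + 1), ∑ q ∈ range (n + 1 - j),
      ∑ u ∈ words j, σ s x ^ (2 * u.length) * nA q (dXw u (G s) x) := by
    simp only [bb, lev, one_pow, one_mul, ← nA_eq_ip_RR, mul_sum]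
    refine sum_congr rfl fun j _ => sum_congr rfl fun q _ => sum_congr rfl fun u hu => ?_
    rw [mem_words.1 hu]
  rw [e, abs_of_nonneg (sum_nonneg fun _ _ => sum_nonneg fun _ _ => sum_nonneg fun _ _ =>
    mul_nonneg (pow_pos (hσ s x) _).le (nA_nonneg _ _))]
  calc _ ≤ C * m s x ^ 2 := by
        simp only [hC, sum_mul]
        exact sum_le_sum fun j _ => sum_le_sum fun q _ => sum_le_sum fun u _ => hK u q s hs x
    _ ≤ _ := by nlinarith [sq_nonneg (m s x)]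

/-- The transport operator acting on a symbol. -/
theorem VS.tr (hσ : ∀ s x, 0 < σ s x) {m μ : ℝ → E3 → ℝ} {G : ℝ → E3 → SV} (h : VS σ m G)
    {F : ℝ → Fld} (hu : ∀ i, US σ (fun s x => μ s x * σ s x) fun s => (F s).u i)
    (hc : US σ (fun s x => μ s x * σ s x) fun s => (F s).c)
    (h0 : ∀ j, US σ μ fun s => (F s).b0 j) (h1 : ∀ i j, US σ μ fun s => (F s).b1 i j)
    (h2 : ∀ i, US σ μ fun s => (F s).b2 i) :
    VS σ (fun s x => μ s x * m s x) fun s x => (F s).tr (G s) x := by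
  have e : ∀ s, 0 ≤ s → ∀ x, μ s x * σ s x * (m s x / σ s x) ≤ 1 * (μ s x * m s x) := by
    intro s _ x
    have := (hσ s x).ne'
    exact le_of_eq (by field_simp)
  exact VS.add _ _ (VS.sum3 fun i => VS.add _ _
      (((h.dX hσ i).smul hσ (hu i)).mono zero_le_one e)
      ((((h.dX hσ i).clm (mulV i)).smul hσ hc).mono zero_le_one e))
    (VS.add _ _ (VS.add _ _ (VS.sum3 fun j => (h.clm (ap j)).smul hσ (h0 j))
      (VS.sum3 fun i => VS.sum3 fun j => ((h.clm (ap j)).clm (mulV i)).smul hσ (h1 i j)))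
      (VS.sum3 fun i => VS.sum3 fun j =>
        (((h.clm (ap j)).clm (mulV j)).clm (mulV i)).smul hσ (h2 i))).neg

end Pool.Agent.MP_187b32_an.Corr2
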