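import Pool.Agent.MP_187b32_an.Spec.Bg
import Pool.Agent.MP_187b32_an.Corr2.Sym
import Pool.Agent.MP_187b32_an.Calc.Torus
import Pool.Agent.MP_187b32_an.Lin.Loc

/-!
Sizes `exp (-t s) Lam ^ p` of the symbols built from the background, and energy bounds.
-/

set_option autoImplicit false

open Pool.Agent.Boltz Finset Filter Topology

noncomputable section

namespace Pool.Agent.MP_187b32_an.Corr2

lemma exists_lattice_box (x : E3) :
    ∃ n : Fin 3 → ℤ, box (1 / 2) (x + ∑ i, (n i : ℝ) • ev i) := by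
  obtain ⟨n, hn⟩ := exists_lattice_mem_cube (WithLp.toLp 2 fun _ => -(1 / 2 : ℝ)) x
  refine ⟨n, fun i => ?_⟩
  have h := hn i
  simp only [Set.mem_Ioc] at h
  rw [abs_le]
  constructor <;> linarith [h.1, h.2]

lemma rho2_nonneg (c : Cut) (x : E3) : 0 ≤ c.rho2 x := by
  obtain ⟨n, hn⟩ := exists_lattice_box x
  rw [← c.per_rho2.add_lattice n x]
  exact le_trans (by positivity) (c.rho2_ge _ hn)

variable {B : BgD}

lemma Lam_pos (s : ℝ) (x : E3) : 0 < B.Lam s x :=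
  Real.sqrt_pos.2 (add_pos_of_pos_of_nonneg (Real.exp_pos _) (rho2_nonneg _ x))

lemma sig_pos (s : ℝ) (x : E3) : 0 < B.sig s x :=
  add_pos_of_pos_of_nonneg (Real.exp_pos _) (Real.sqrt_nonneg _)

lemma continuous_Lam (s : ℝ) : Continuous (B.Lam s) :=
  (continuous_const.add B.cut.cd_rho2.continuous).sqrt

lemma nu_Lam_le (hB : B.Ok) (s : ℝ) (x : E3) : B.nu * B.Lam s x ≤ B.sig s x := by
  have h0 := hB.nu_pos
  have h1 : B.nu ^ 2 ≤ 1 := pow_le_one₀ h0.le hB.nu_le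
  have h2 := Real.exp_pos (-2 * s)
  have h3 : B.nu * B.Lam s x ≤ √(Real.exp (-2 * s) + B.nu ^ 2 * B.cut.rho2 x) := by
    rw [BgD.Lam, ← Real.sqrt_sq h0.le, ← Real.sqrt_mul (sq_nonneg _), Real.sqrt_sq h0.le]
    exact Real.sqrt_le_sqrt (by nlinarith)
  have h4 := Real.exp_pos (-s)
  unfold BgD.sig
  linarith

/-- The sizes. -/
def P (B : BgD) (t p s : ℝ) (x : E3) : ℝ := Real.exp (-t * s) * B.Lam s x ^ p

lemma P_pos (t p s : ℝ) (x : E3) : 0 < P B t p s x :=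
  mul_pos (Real.exp_pos _) (Real.rpow_pos_of_pos (Lam_pos s x) _)

lemma P_mul (t p t' p' s : ℝ) (x : E3) :
    P B t p s x * P B t' p' s x = P B (t + t') (p + p') s x := by
  unfold P
  rw [Real.rpow_add (Lam_pos s x), neg_add, add_mul, Real.exp_add]
  ring

lemma P_zero (s : ℝ) (x : E3) : P B 0 0 s x = 1 := by simp [P]

lemma P_inv (t p s : ℝ) (x : E3) : (P B t p s x)⁻¹ = P B (-t) (-p) s x := by
  refine inv_eq_of_mul_eq_one_right ?_
  rw [P_mul, add_neg_cancel, add_neg_cancel, P_zero]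

lemma P_pow (t p s : ℝ) (x : E3) (k : ℕ) : P B t p s x ^ k = P B (k * t) (k * p) s x := by
  induction k with
  | zero => simp [P_zero]
  | succ k ih => rw [pow_succ, ih, P_mul]; congr 1 <;> push_cast <;> ring

lemma P_succ (t p s : ℝ) (x : E3) : P B t (p + 1) s x = P B t p s x * B.Lam s x := by
  unfold P
  rw [Real.rpow_add_one (Lam_pos s x).ne', mul_assoc]

lemma P_succ_le (hB : B.Ok) (t p s : ℝ) (x : E3) :
    P B t (p + 1) s x ≤ B.nu⁻¹ * (P B t p s x * B.sig s x) := by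
  rw [P_succ, le_inv_mul_iff₀ hB.nu_pos, mul_left_comm]
  exact mul_le_mul_of_nonneg_left (nu_Lam_le hB s x) (P_pos _ _ _ _).le

/-- Symbols of size `exp (-t s) Lam ^ p`. -/
def Sy (B : BgD) (t p : ℝ) (a : ℝ → E3 → ℝ) : Prop := US B.sig (P B t p) a

theorem Sy.cast {t p t' p' : ℝ} {a : ℝ → E3 → ℝ} (h : Sy B t p a) (ht : t = t') (hp : p = p') :
    Sy B t' p' a := ht ▸ hp ▸ h

theorem Sy.mul {t p t' p' : ℝ} {a b : ℝ → E3 → ℝ} (ha : Sy B t p a) (hb : Sy B t' p' b) :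
    Sy B (t + t') (p + p') fun s x => a s x * b s x :=
  (US.mul sig_pos ha hb).size fun _ _ => P_mul _ _ _ _ _ _

theorem Sy.pow {t p : ℝ} {a : ℝ → E3 → ℝ} (ha : Sy B t p a) (k : ℕ) :
    Sy B (k * t) (k * p) fun s x => a s x ^ k :=
  (US.pow sig_pos ha k).size fun _ _ => P_pow _ _ _ _ _

theorem Sy.add {t p : ℝ} {a b : ℝ → E3 → ℝ} (ha : Sy B t p a) (hb : Sy B t p b) :
    Sy B t p fun s x => a s x + b s x := US.add sig_pos ha hb

theorem Sy.const_mul {t p : ℝ} {a : ℝ → E3 → ℝ} (ha : Sy B t p a) (c : ℝ) :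
    Sy B t p fun s x => c * a s x := US.const_mul ha c

theorem Sy.sum3 {t p : ℝ} {a : Fin 3 → ℝ → E3 → ℝ} (ha : ∀ i, Sy B t p (a i)) :
    Sy B t p fun s x => ∑ i, a i s x := US.sum3 sig_pos ha

theorem Sy.dX (hB : B.Ok) {t p : ℝ} {a : ℝ → E3 → ℝ} (ha : Sy B t p a) (i : Fin 3) :
    Sy B t (p - 1) fun s => dX i (a s) := by
  refine (US.dX sig_pos ha i).mono (inv_pos.2 hB.nu_pos).le fun s _ x => ?_
  have h := P_succ_le hB t (p - 1) s x
  rw [sub_add_cancel] at h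
  rwa [div_le_iff₀ (sig_pos s x), mul_assoc]

theorem sy_exp : Sy B B.r 0 fun s _ => Real.exp (-B.r * s) :=
  (US.of_time (by fun_prop) fun _ => (Real.exp_pos _).le).size fun _ _ => by simp [P]

lemma per_dS {a : ℝ → E3 → ℝ} (h : ∀ s, Per (a s)) (s : ℝ) : Per (dS a s) := fun i x => by
  simp only [dS, fun t => h t i x]

/-- Fields of the size of the background, with the gain `mu` for the time derivative. -/
structure Bk (B : BgD) (a : ℝ → E3 → ℝ) : Prop where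
  smd : SmD a (dS a)
  sy : Sy B 0 (1 - B.r) a
  sy' : Sy B B.r (1 - 2 * B.r) (dS a)

lemma bk_of_sym {a : ℝ → E3 → ℝ} {K : ℕ → ℝ} (h : SmD a (dS a)) (hp : ∀ s, Per (a s))
    (h1 : ∀ s, 0 ≤ s → SymBd K 0 (B.sig s) (fun x => B.Lam s x ^ (1 - B.r)) (a s))
    (h2 : ∀ s, 0 ≤ s →
      SymBd K 0 (B.sig s) (fun x => B.mu s x * B.Lam s x ^ (1 - B.r)) (dS a s)) : Bk B a := by
  have e1 : ∀ s x, B.Lam s x ^ (1 - B.r) = P B 0 (1 - B.r) s x := fun s x => by simp [P]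
  have e2 : ∀ s x, B.mu s x * B.Lam s x ^ (1 - B.r) = P B B.r (1 - 2 * B.r) s x := fun s x => by
    rw [e1, show B.mu s x = P B B.r (-B.r) s x from rfl, P_mul]
    congr 1 <;> ring
  simp only [e1] at h1
  simp only [e2] at h2
  exact ⟨h, US.of_sym h.sm hp (fun s x => (P_pos _ _ s x).le) h1,
    US.of_sym h.sm' (per_dS hp) (fun s x => (P_pos _ _ s x).le) h2⟩

lemma bk_u (hB : B.Ok) (i : Fin 3) : Bk B (B.u i) := by
  obtain ⟨K, hK⟩ := hB.sym
  exact bk_of_sym (hB.sm_u i) (hB.per_u i) (fun s hs => (hK s hs).1 i)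
    fun s hs => (hK s hs).2.2.1 i

lemma bk_C (hB : B.Ok) : Bk B B.C := by
  obtain ⟨K, hK⟩ := hB.sym
  exact bk_of_sym hB.sm_C hB.per_C (fun s hs => (hK s hs).2.1) fun s hs => (hK s hs).2.2.2

lemma sy_invC (hB : B.Ok) : Sy B 0 (B.r - 1) fun s x => (B.C s x)⁻¹ := by
  obtain ⟨c, hc, h⟩ := hB.C_ge
  refine (US.inv sig_pos (bk_C hB).sy (P_pos _ _) hB.C_pos hc fun s hs x => ?_).size
    fun s x => ?_
  · simpa [P] using h s hs x
  · rw [P_inv]; congr 1 <;> ring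

lemma Bk.exp_mul {a : ℝ → E3 → ℝ} (h : Bk B a) :
    Sy B B.r (-B.r + 1) fun s x => Real.exp (-B.r * s) * a s x :=
  (sy_exp.mul h.sy).cast (by ring) (by ring)

lemma Bk.exp_dX (hB : B.Ok) {a : ℝ → E3 → ℝ} (h : Bk B a) (i : Fin 3) :
    Sy B B.r (-B.r) fun s x => Real.exp (-B.r * s) * dX i (a s) x :=
  (sy_exp.mul (h.sy.dX hB i)).cast (by ring) (by ring)

lemma Bk.mat (hB : B.Ok) {a : ℝ → E3 → ℝ} (h : Bk B a) : Sy B B.r (1 - 2 * B.r) (B.mat a) :=
  h.sy'.add (Sy.sum3 fun i => ((bk_u hB i).exp_mul.mul (h.sy.dX hB i)).cast (by ring) (by ring))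

lemma Bk.mat_div (hB : B.Ok) {a : ℝ → E3 → ℝ} (h : Bk B a) :
    Sy B B.r (-B.r) fun s x => B.mat a s x * (B.C s x)⁻¹ :=
  ((h.mat hB).mul (sy_invC hB)).cast (by ring) (by ring)

/-- The transport operator of the background gains the factor `mu`. -/
theorem vs_tr (hB : B.Ok) {t p : ℝ} {G : ℝ → E3 → SV} (h : VS B.sig (P B t p) G) :
    VS B.sig (P B (B.r + t) (p - B.r)) fun s x => (B.fld s).tr (G s) x := by
  have hn := (inv_pos.2 hB.nu_pos).le
  refine (h.tr sig_pos (μ := P B B.r (-B.r)) (F := B.fld)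
    (fun i => US.mono (bk_u hB i).exp_mul hn fun s _ x => P_succ_le hB _ _ s x)
    (US.mono (bk_C hB).exp_mul hn fun s _ x => P_succ_le hB _ _ s x)
    (fun j => (US.neg ((bk_u hB j).mat_div hB)).congr fun s x => ?_) (fun i j => ?_)
    (fun i => US.neg ((bk_C hB).exp_dX hB i))).mono zero_le_one fun s _ x => le_of_eq ?_
  · simp only [BgD.fld, div_eq_mul_inv, neg_mul]
  · refine (US.sub sig_pos (US.neg ((bk_u hB j).exp_dX hB i))
      (US.const_mul ((bk_C hB).mat_div hB) (if i = j then 1 else 0))).congr fun s x => ?_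
    simp only [BgD.fld, div_eq_mul_inv]
    split_ifs <;> ring
  · rw [P_mul, one_mul]; congr 1; ring

/-- A symbol that vanishes near the lattice lives where `Lam` is bounded below. -/
theorem US.cutoff {m a : ℝ → E3 → ℝ} (h : US B.sig m a) (h0 : ∀ s x, box (1 / 10) x → a s x = 0) :
    US B.sig (fun s x => if 1 / 40 ≤ B.Lam s x then m s x else 0) a := by
  refine ⟨h.sm, h.per, fun N w hw => ?_⟩
  obtain ⟨K, hK, hb⟩ := h.bd N w hw
  refine ⟨K, hK, fun s hs x => ?_⟩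
  split_ifs with hx
  · exact hb s hs x
  obtain ⟨n, hn⟩ := exists_lattice_box x
  set y := x + ∑ i, (n i : ℝ) • ev i with hy
  have h1 : ‖y‖ < 1 / 10 := by
    have h2 := B.cut.rho2_ge y hn
    rw [hy, B.cut.per_rho2.add_lattice n x, ← hy] at h2
    have h3 := (Real.sqrt_lt' (by norm_num)).1 (not_le.1 hx)
    have h4 := Real.exp_pos (-2 * s)
    exact lt_of_pow_lt_pow_left₀ 2 (by norm_num) (by linarith)
  have h2 : a s =ᶠ[𝓝 y] fun _ => 0 :=
    ((isOpen_lt continuous_norm continuous_const).eventually_mem h1).mono fun z hz =>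
      h0 s z fun i => (le_trans (by simpa using PiLp.norm_apply_le z i) (le_of_lt hz))
  rw [← ((h.per s).dXw w).add_lattice n x, ← hy, dXw_congr_ev h2, dXw_zero]
  simp

theorem E_le {m : ℝ → E3 → ℝ} {G : ℝ → E3 → SV} (h : VS B.sig m G) (n : ℕ) :
    ∃ C : ℝ, 0 < C ∧ ∀ a s, 0 ≤ s → ∀ ψ : E3 → ℝ, Continuous ψ →
      (∀ x, B.om a s x * m s x ^ 2 ≤ ψ x) → B.E n 1 a s (G s) (G s) ≤ C * tint ψ := by
  obtain ⟨C, hC, hb⟩ := h.bb_le sig_pos n
  refine ⟨C, hC, fun a s hs ψ hψ hle => ?_⟩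
  rw [← tint_const_mul]
  refine (le_abs_self _).trans (abs_tint_le_of_abs_le (continuous_const.mul hψ) fun x => ?_)
  have h0 : 0 < B.om a s x := mul_pos (Real.exp_pos _) (Real.rpow_pos_of_pos (Lam_pos s x) _)
  rw [abs_mul, abs_of_pos h0]
  have h1 := mul_le_mul_of_nonneg_left (hb s hs x) h0.le
  have h2 := mul_le_mul_of_nonneg_left (hle x) hC.le
  linarith

lemma om_mul_P (a t p s : ℝ) (x : E3) : B.om a s x * P B t p s x ^ 2 =
    Real.exp (-(2 * a + 2 * t) * s) * B.Lam s x ^ (-3 - (2 * a - 2 * p)) := by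
  have e : B.om a s x = P B (2 * a) (-3 - 2 * a) s x := by
    simp only [BgD.om, P, neg_mul]
  rw [e, sq, P_mul, P_mul, P]
  congr 2 <;> ring

theorem E_le_P {t p : ℝ} {G : ℝ → E3 → SV} (h : VS B.sig (P B t p) G) (n : ℕ) :
    ∃ C : ℝ, 0 < C ∧ ∀ a s, 0 ≤ s → B.E n 1 a s (G s) (G s) ≤
      C * (Real.exp (-(2 * a + 2 * t) * s) * tint fun x => B.Lam s x ^ (-3 - (2 * a - 2 * p))) := by
  obtain ⟨C, hC, hb⟩ := E_le h n
  refine ⟨C, hC, fun a s hs => ?_⟩
  rw [← tint_const_mul]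
  exact hb a s hs _ (continuous_const.mul ((continuous_Lam s).rpow_const
    fun x => Or.inl (Lam_pos s x).ne')) fun x => (om_mul_P a t p s x).le

theorem E_le_cutoff (hB : B.Ok) {G : ℝ → E3 → SV}
    (h : VS B.sig (fun s x => if 1 / 40 ≤ B.Lam s x then P B B.r (-B.r) s x else 0) G) (n : ℕ) :
    ∃ C : ℝ, 0 < C ∧ ∀ a s, 0 ≤ s → 0 ≤ a → a ≤ 1 / 4 →
      B.E n 1 a s (G s) (G s) ≤ C * Real.exp (-2 * (B.r + a) * s) := by
  obtain ⟨C, hC, hb⟩ := E_le h n
  have h6 : (0 : ℝ) < (1 / 40) ^ (-6 : ℝ) := by positivity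
  refine ⟨C * (1 / 40) ^ (-6 : ℝ), by positivity, fun a s hs ha ha' => ?_⟩
  have he := Real.exp_pos (-2 * (B.r + a) * s)
  refine (hb a s hs (fun _ => (1 / 40) ^ (-6 : ℝ) * Real.exp (-2 * (B.r + a) * s))
    continuous_const fun x => ?_).trans (le_of_eq (by rw [tint_const]; ring))
  split_ifs with hx
  · rw [om_mul_P, mul_comm, show -(2 * a + 2 * B.r) * s = -2 * (B.r + a) * s by ring]
    have h1 := hB.r_gt
    have h2 := hB.r_lt
    refine mul_le_mul_of_nonneg_right ((Real.rpow_le_rpow_of_nonpos (by norm_num) hx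
      (by linarith)).trans ?_) he.le
    exact Real.rpow_le_rpow_of_exponent_ge (by norm_num) (by norm_num) (by linarith)
  · simpa using (mul_pos h6 he).le

end Pool.Agent.MP_187b32_an.Corr2
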